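import Pool.Agent.H801.Bic.Local
import Pool.Agent.H801.Ecc.Main

/-!
# A constant-constant bicriteria approximation for GlobalECC
-/

namespace Pool.Agent.H801.Bic

open Pool.Agent.NPC Pool.Agent.H801.Ecc

/-- the hyperedges of an instance -/
abbrev Ed : Type := List (ℕ × List ℕ)

/-- the colour of a hyperedge -/
def col (E : Ed) (i : ℕ) : ℕ := (E.getD i (0, [])).1

/-- does the hyperedge contain the node? -/
def on (E : Ed) (v i : ℕ) : Bool := decide (v ∈ (E.getD i (0, [])).2)

/-- two hyperedges of distinct colours through a node -/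
def conf (E : Ed) (v i j : ℕ) : Bool := on E v i && (on E v j && !decide (col E i = col E j))

/-- the constraint of two conflicting hyperedges -/
def con (E : Ed) (b v i j : ℕ) : Con :=
  if b = 0 then (Sum.inl i, Sum.inl i, Sum.inl j, Sum.inl j)
  else (Sum.inl i, Sum.inr (v, col E i), Sum.inl j, Sum.inr (v, col E j))

/-- all constraints -/
def cons (n : ℕ) (E : Ed) (b : ℕ) : List Con :=
  (List.range n).flatMap fun v => (List.range E.length).flatMap fun i =>
    ((List.range E.length).filter (fun j => conf E v i j)).map (fun j => con E b v i j)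

/-- the initial weights -/
def init (n : ℕ) (E : Ed) (b t : ℕ) : List (El × ℕ) :=
  ((List.range E.length).map (fun i => ((Sum.inl i : El), max b 1))) ++
    (List.range n).flatMap (fun v => (List.range E.length).map
      (fun i => ((Sum.inr (v, col E i) : El), t)))

/-- the final residual weights -/
def fin (n : ℕ) (E : Ed) (b t : ℕ) : List (El × ℕ) := (cons n E b).foldl stepl (init n E b t)

/-- is a hyperedge kept? -/
def kept (R : List (El × ℕ)) (t i : ℕ) : Bool := decide (t = 0) || !decide (lk R (Sum.inl i) = 0)

/-- the colours of the kept hyperedges through a node -/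
def cols (E : Ed) (R : List (El × ℕ)) (t v : ℕ) : List ℕ :=
  ((List.range E.length).filter (fun i => kept R t i && on E v i)).map (fun i => col E i)

/-- a list of colours, made nonempty -/
def nn (l : List ℕ) : List ℕ := if l = [] then [0] else l

/-- the candidate solution for the guess `t` of the number of mistakes -/
def cand (n : ℕ) (E : Ed) (b t : ℕ) : List (List ℕ) :=
  (List.range n).map (fun v => nn (cols E (fin n E b t) t v))

/-- insertion into a duplicate-free list -/
def ins (acc : List ℕ) (x : ℕ) : List ℕ := if x ∈ acc then acc else x :: acc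

/-- removing duplicates -/
def dd (l : List ℕ) : List ℕ := l.foldl ins []

/-- the number of extra colours -/
def extras (L : List (List ℕ)) : ℕ := (L.map (fun l => (dd l).length - 1)).sum

/-- is the guess good? -/
def good (n : ℕ) (E : Ed) (b t : ℕ) : Bool :=
  decide (extras (cand n E b t) ≤ 8 * b) && decide (mk E (cand n E b t) ≤ 8 * t)

/-- the least good guess -/
def best (n : ℕ) (E : Ed) (b : ℕ) : ℕ :=
  match ((List.range (E.length + 1)).filter (fun t => good n E b t)).head? with
  | none => 0
  | some t => t

/-- the output of the algorithm -/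
def out (n : ℕ) (E : Ed) (b : ℕ) : List (List ℕ) := cand n E b (best n E b)

/-! ### Correctness -/

theorem dd_spec (l : List ℕ) : (dd l).Nodup ∧ (dd l).toFinset = l.toFinset := by
  have key : ∀ (l acc : List ℕ), acc.Nodup → (l.foldl ins acc).Nodup ∧
      (l.foldl ins acc).toFinset = acc.toFinset ∪ l.toFinset := by
    intro l
    induction l with
    | nil => intro acc h; exact ⟨h, by simp⟩
    | cons x l ih =>
      intro acc h
      rw [List.foldl_cons]
      have h1 : (ins acc x).Nodup := by
        unfold ins
        split_ifs with h1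
        · exact h
        · exact List.nodup_cons.2 ⟨h1, h⟩
      obtain ⟨h2, h3⟩ := ih _ h1
      refine ⟨h2, ?_⟩
      rw [h3]
      unfold ins
      split_ifs with h1
      · ext y
        simp only [Finset.mem_union, List.mem_toFinset, List.mem_cons]
        constructor
        · rintro (h | h)
          · exact Or.inl h
          · exact Or.inr (Or.inr h)
        · rintro (h | rfl | h)
          · exact Or.inl h
          · exact Or.inl h1
          · exact Or.inr h
      · ext y
        simp only [Finset.mem_union, List.mem_toFinset, List.mem_cons]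
        tauto
  obtain ⟨h1, h2⟩ := key l [] List.nodup_nil
  exact ⟨h1, by rw [dd, h2]; simp⟩

theorem dd_length (l : List ℕ) : (dd l).length = l.toFinset.card := by
  rw [← (dd_spec l).2, List.toFinset_card_of_nodup (dd_spec l).1]

theorem asg_cand {n : ℕ} {E : Ed} {b t v : ℕ} (hv : v < n) :
    asg (cand n E b t) v = (nn (cols E (fin n E b t) t v)).toFinset := by
  unfold asg cand
  rw [List.getD_eq_getElem?_getD, List.getElem?_map, List.getElem?_range hv]
  rfl

theorem extras_cand (n : ℕ) (E : Ed) (b t : ℕ) :
    extras (cand n E b t) = ∑ v ∈ Finset.range n, ((asg (cand n E b t) v).card - 1) := by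
  unfold extras
  rw [show (cand n E b t).map (fun l => (dd l).length - 1) =
    (List.range n).map (fun v => (asg (cand n E b t) v).card - 1) from ?_]
  · rw [← List.sum_toFinset _ List.nodup_range, List.toFinset_range]
  · unfold cand
    rw [List.map_map]
    apply List.map_congr_left
    intro v hv
    rw [List.mem_range] at hv
    rw [Function.comp, dd_length]
    have := asg_cand (E := E) (b := b) (t := t) hv
    unfold cand at this
    rw [this]

/-- mistakes, in terms of indices -/
theorem mistakes_card (n k : ℕ) (E : Ed) (b : ℕ) (S : ℕ → Finset ℕ) :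
    mistakes (n, k, E, b) S = ((Finset.range E.length).filter (fun i =>
      ∃ v ∈ (E.getD i (0, [])).2, col E i ∉ S v)).card := by
  unfold mistakes
  rw [← countP_range]
  change E.countP _ = _
  unfold col
  induction E with
  | nil => simp
  | cons e E ih =>
    rw [List.countP_cons, List.length_cons, List.range_succ_eq_map, List.countP_cons,
      List.countP_map, ih]
    congr 1

theorem mem_cols {E : Ed} {R : List (El × ℕ)} {t v c : ℕ} : c ∈ cols E R t v ↔
    ∃ i < E.length, kept R t i = true ∧ on E v i = true ∧ col E i = c := by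
  simp only [cols, List.mem_map, List.mem_filter, List.mem_range, Bool.and_eq_true]
  constructor
  · rintro ⟨i, ⟨h1, h2, h3⟩, h4⟩; exact ⟨i, h1, h2, h3, h4⟩
  · rintro ⟨i, h1, h2, h3, h4⟩; exact ⟨i, ⟨h1, h2, h3⟩, h4⟩

theorem nn_nonempty (l : List ℕ) : (nn l).toFinset.Nonempty := by
  unfold nn
  split_ifs with h
  · simp
  · obtain ⟨x, hx⟩ := List.exists_mem_of_ne_nil l h
    exact ⟨x, by simpa using hx⟩

theorem subset_nn (l : List ℕ) : l.toFinset ⊆ (nn l).toFinset := by
  unfold nn
  split_ifs with h
  · rw [h]; simp
  · exact le_rfl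

/-- Legal instances. -/
def Legal (I : Inst) : Prop :=
  1 ≤ colours I ∧ ∀ e ∈ hedges I, e.1 < colours I ∧ ∀ v ∈ e.2, v < nodes I

theorem legal_getD {n k : ℕ} {E : Ed} {b : ℕ} (h : Legal (n, k, E, b)) {i : ℕ}
    (hi : i < E.length) : col E i < k ∧ ∀ v, on E v i = true → v < n := by
  have h1 := h.2 (E.getD i (0, [])) (by
    rw [List.getD_eq_getElem _ _ hi]
    exact List.getElem_mem _)
  refine ⟨h1.1, fun v hv => h1.2 v ?_⟩
  simpa [on] using hv

theorem cand_legal {n k : ℕ} {E : Ed} {b t : ℕ} (h : Legal (n, k, E, b)) {v : ℕ} (hv : v < n) :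
    (asg (cand n E b t) v).Nonempty ∧ asg (cand n E b t) v ⊆ Finset.range k := by
  rw [asg_cand hv]
  refine ⟨nn_nonempty _, ?_⟩
  intro c hc
  rw [List.mem_toFinset] at hc
  unfold nn at hc
  rw [Finset.mem_range]
  split_ifs at hc with h1
  · rw [List.mem_singleton] at hc
    have := h.1
    change 1 ≤ k at this
    omega
  · obtain ⟨i, hi, _, _, rfl⟩ := mem_cols.1 hc
    exact (legal_getD h hi).1

/-- hyperedges that are kept are satisfied -/
theorem mk_cand_le {n k : ℕ} {E : Ed} {b t : ℕ} (h : Legal (n, k, E, b)) :
    mk E (cand n E b t) ≤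
      ((Finset.range E.length).filter (fun i => kept (fin n E b t) t i = false)).card := by
  have h1 := mk_eq (n, k, E, b) (cand n E b t)
  change _ = mk E _ at h1
  rw [← h1, mistakes_card]
  apply Finset.card_le_card
  intro i hi
  rw [Finset.mem_filter, Finset.mem_range] at hi ⊢
  obtain ⟨hi, v, hv, hc⟩ := hi
  have hv : on E v i = true := by simpa [on] using hv
  refine ⟨hi, ?_⟩
  by_contra hk
  rw [Bool.not_eq_false] at hk
  apply hc
  have hvn := (legal_getD h hi).2 v hv
  rw [asg_cand hvn]
  apply subset_nn
  rw [List.mem_toFinset]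
  exact mem_cols.2 ⟨i, hi, hk, hv, rfl⟩

theorem mem_cons_iff {n : ℕ} {E : Ed} {b : ℕ} {c : Con} : c ∈ cons n E b ↔
    ∃ v < n, ∃ i < E.length, ∃ j < E.length, on E v i = true ∧ on E v j = true ∧
      col E i ≠ col E j ∧ c = con E b v i j := by
  simp only [cons, List.mem_flatMap, List.mem_map, List.mem_filter, List.mem_range, conf,
    Bool.and_eq_true, Bool.not_eq_true', decide_eq_false_iff_not]
  constructor
  · rintro ⟨v, hv, i, hi, j, ⟨hj, h1, h2, h3⟩, rfl⟩
    exact ⟨v, hv, i, hi, j, hj, h1, h2, h3, rfl⟩
  · rintro ⟨v, hv, i, hi, j, hj, h1, h2, h3, rfl⟩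
    exact ⟨v, hv, i, hi, j, ⟨hj, h1, h2, h3⟩, rfl⟩

theorem lk_init_inl {n : ℕ} {E : Ed} {b t i : ℕ} (hi : i < E.length) :
    lk (init n E b t) (Sum.inl i) = max b 1 := by
  apply lk_of_const
  · intro p hp he
    simp only [init, List.mem_append, List.mem_map, List.mem_flatMap, List.mem_range] at hp
    rcases hp with ⟨j, _, rfl⟩ | ⟨v, _, j, _, rfl⟩
    · rfl
    · simp at he
  · refine ⟨(Sum.inl i, max b 1), ?_, rfl⟩
    simp only [init, List.mem_append, List.mem_map, List.mem_range]
    exact Or.inl ⟨i, hi, rfl⟩

theorem lk_init_inr {n : ℕ} {E : Ed} {b t v i : ℕ} (hv : v < n) (hi : i < E.length) :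
    lk (init n E b t) (Sum.inr (v, col E i)) = t := by
  apply lk_of_const
  · intro p hp he
    simp only [init, List.mem_append, List.mem_map, List.mem_flatMap, List.mem_range] at hp
    rcases hp with ⟨j, _, rfl⟩ | ⟨v, _, j, _, rfl⟩
    · simp at he
    · rfl
  · refine ⟨(Sum.inr (v, col E i), t), ?_, rfl⟩
    simp only [init, List.mem_append, List.mem_map, List.mem_flatMap, List.mem_range]
    exact Or.inr ⟨v, hv, i, hi, rfl⟩

theorem lk_init_le_inl {n : ℕ} {E : Ed} {b t i : ℕ} :
    lk (init n E b t) (Sum.inl i) ≤ max b 1 := by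
  apply lk_le_of
  intro p hp he
  simp only [init, List.mem_append, List.mem_map, List.mem_flatMap, List.mem_range] at hp
  rcases hp with ⟨j, _, rfl⟩ | ⟨v, _, j, _, rfl⟩
  · exact le_rfl
  · simp at he

theorem lk_init_le_inr {n : ℕ} {E : Ed} {b t : ℕ} {q : ℕ × ℕ} :
    lk (init n E b t) (Sum.inr q) ≤ t := by
  apply lk_le_of
  intro p hp he
  simp only [init, List.mem_append, List.mem_map, List.mem_flatMap, List.mem_range] at hp
  rcases hp with ⟨j, _, rfl⟩ | ⟨v, _, j, _, rfl⟩
  · simp at he
  · exact le_rfl

/-- the universe of the elements -/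
def univE (n k : ℕ) (E : Ed) : Finset El :=
  (Finset.range E.length).disjSum (Finset.range n ×ˢ Finset.range k)

open Classical in
/-- The hitting set of a feasible solution. -/
def hit (E : Ed) (S : ℕ → Finset ℕ) : El → Prop
  | Sum.inl i => ∃ v ∈ (E.getD i (0, [])).2, col E i ∉ S v
  | Sum.inr (v, c) => c ∈ S v ∧ ∃ c' ∈ S v, c' < c

theorem card_nonmin (s : Finset ℕ) :
    (s.filter (fun c => ∃ c' ∈ s, c' < c)).card ≤ s.card - 1 := by
  rcases s.eq_empty_or_nonempty with rfl | hs
  · simp
  · have h1 : s.filter (fun c => ∃ c' ∈ s, c' < c) ⊆ s.erase (s.min' hs) := by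
      intro c hc
      rw [Finset.mem_filter] at hc
      obtain ⟨hc, c', hc', hlt⟩ := hc
      rw [Finset.mem_erase]
      refine ⟨?_, hc⟩
      rintro rfl
      exact absurd (s.min'_le c' hc') (by omega)
    refine (Finset.card_le_card h1).trans ?_
    rw [Finset.card_erase_of_mem (s.min'_mem hs)]

open Classical in
theorem hit_weight {n k : ℕ} {E : Ed} {b t : ℕ} {S : ℕ → Finset ℕ}
    (hS : GlobalFeasible (n, k, E, b) S) (ht : mistakes (n, k, E, b) S = t) :
    ∑ el ∈ (univE n k E).filter (hit E S), lk (init n E b t) el ≤ max b 1 * t + t * b := by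
  rw [Finset.sum_filter, univE, Finset.sum_disjSum]
  apply Nat.add_le_add
  · calc ∑ i ∈ Finset.range E.length, (if hit E S (Sum.inl i) then
          lk (init n E b t) (Sum.inl i) else 0)
        ≤ ∑ i ∈ Finset.range E.length, (if hit E S (Sum.inl i) then max b 1 else 0) := by
          apply Finset.sum_le_sum
          intro i _
          split_ifs
          · exact lk_init_le_inl
          · exact le_rfl
      _ = max b 1 * t := by
          rw [← Finset.sum_filter, Finset.sum_const, smul_eq_mul, mul_comm]
          congr 1
          rw [← ht, mistakes_card]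
          apply congrArg
          apply Finset.filter_congr
          intro i _
          exact Iff.rfl
  · calc ∑ q ∈ Finset.range n ×ˢ Finset.range k, (if hit E S (Sum.inr q) then
          lk (init n E b t) (Sum.inr q) else 0)
        ≤ ∑ q ∈ Finset.range n ×ˢ Finset.range k, (if hit E S (Sum.inr q) then t else 0) := by
          apply Finset.sum_le_sum
          intro q _
          split_ifs
          · exact lk_init_le_inr
          · exact le_rfl
      _ = ∑ v ∈ Finset.range n, ∑ c ∈ Finset.range k,
            (if hit E S (Sum.inr (v, c)) then t else 0) := Finset.sum_product _ _ _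
      _ ≤ ∑ v ∈ Finset.range n, t * ((S v).card - 1) := by
          apply Finset.sum_le_sum
          intro v _
          rw [← Finset.sum_filter, Finset.sum_const, smul_eq_mul, mul_comm]
          apply Nat.mul_le_mul_left
          refine le_trans (Finset.card_le_card ?_) (card_nonmin (S v))
          intro c hc
          rw [Finset.mem_filter] at hc
          rw [Finset.mem_filter]
          exact hc.2
      _ = t * ∑ v ∈ Finset.range n, ((S v).card - 1) := by rw [Finset.mul_sum]
      _ ≤ t * b := Nat.mul_le_mul_left _ hS.2

theorem hit_cons {n k : ℕ} {E : Ed} {b : ℕ} {S : ℕ → Finset ℕ} (hL : Legal (n, k, E, b))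
    (hS : GlobalFeasible (n, k, E, b) S) : ∀ c ∈ cons n E b,
      ∃ el ∈ univE n k E, inCon el c = true ∧ hit E S el := by
  intro c hc
  obtain ⟨v, hv, i, hi, j, hj, h1, h2, h3, rfl⟩ := mem_cons_iff.1 hc
  have hmemi : (Sum.inl i : El) ∈ univE n k E := by
    rw [univE, Finset.inl_mem_disjSum, Finset.mem_range]; exact hi
  have hmemj : (Sum.inl j : El) ∈ univE n k E := by
    rw [univE, Finset.inl_mem_disjSum, Finset.mem_range]; exact hj
  by_cases m1 : col E i ∈ S v
  · by_cases m2 : col E j ∈ S v
    · have hb : b ≠ 0 := by
        intro hb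
        have h4 : (S v).card - 1 ≤ b := by
          refine le_trans ?_ hS.2
          exact Finset.single_le_sum (f := fun v => (S v).card - 1) (fun _ _ => Nat.zero_le _)
            (Finset.mem_range.2 hv)
        have h5 : 1 < (S v).card := Finset.one_lt_card.2 ⟨_, m1, _, m2, h3⟩
        omega
      rcases lt_or_gt_of_ne h3 with h4 | h4
      · refine ⟨Sum.inr (v, col E j), ?_, ?_, m2, _, m1, h4⟩
        · rw [univE, Finset.inr_mem_disjSum, Finset.mem_product, Finset.mem_range,
            Finset.mem_range]
          exact ⟨hv, (legal_getD hL hj).1⟩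
        · rw [inCon_iff, con, if_neg hb]
          exact Or.inr (Or.inr (Or.inr rfl))
      · refine ⟨Sum.inr (v, col E i), ?_, ?_, m1, _, m2, h4⟩
        · rw [univE, Finset.inr_mem_disjSum, Finset.mem_product, Finset.mem_range,
            Finset.mem_range]
          exact ⟨hv, (legal_getD hL hi).1⟩
        · rw [inCon_iff, con, if_neg hb]
          exact Or.inr (Or.inl rfl)
    · refine ⟨Sum.inl j, hmemj, ?_, v, by simpa [on] using h2, m2⟩
      rw [inCon_iff]
      unfold con
      split_ifs
      · exact Or.inr (Or.inr (Or.inl rfl))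
      · exact Or.inr (Or.inr (Or.inl rfl))
  · refine ⟨Sum.inl i, hmemi, ?_, v, by simpa [on] using h1, m1⟩
    rw [inCon_iff]
    unfold con
    split_ifs
    · exact Or.inl rfl
    · exact Or.inl rfl

/-- the pairs of a node and a paid colour used in the candidate -/
def paid (n k : ℕ) (E : Ed) (b t : ℕ) : Finset (ℕ × ℕ) :=
  (Finset.range n ×ˢ Finset.range k).filter (fun q =>
    q.2 ∈ cols E (fin n E b t) t q.1 ∧ lk (fin n E b t) (Sum.inr q) = 0)

/-- the hyperedges given up -/
def lost (n : ℕ) (E : Ed) (b t : ℕ) : Finset ℕ :=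
  (Finset.range E.length).filter (fun i => lk (fin n E b t) (Sum.inl i) = 0)

open Classical in
theorem weight_bound {n k : ℕ} {E : Ed} {b t : ℕ} {S : ℕ → Finset ℕ} (hL : Legal (n, k, E, b))
    (hS : GlobalFeasible (n, k, E, b) S) (ht : mistakes (n, k, E, b) S = t) :
    (lost n E b t).card * max b 1 + (paid n k E b t).card * t ≤ 4 * (max b 1 * t + t * b) := by
  have h1 := zero_weight (univE n k E) (hit E S) (cons n E b) (lk (init n E b t))
    (hit_cons hL hS)
  rw [← lk_foldl] at h1
  refine le_trans ?_ (h1.trans (Nat.mul_le_mul_left _ (hit_weight hS ht)))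
  change _ ≤ ∑ el ∈ (univE n k E).filter (fun el => lk (fin n E b t) el = 0), _
  rw [Finset.sum_filter, univE, Finset.sum_disjSum]
  apply Nat.add_le_add
  · rw [← Finset.sum_filter]
    change _ ≤ ∑ i ∈ lost n E b t, _
    have h2 : ∀ i ∈ lost n E b t, lk (init n E b t) (Sum.inl i) = max b 1 := fun i hi =>
      lk_init_inl (Finset.mem_range.1 (Finset.mem_filter.1 hi).1)
    rw [Finset.sum_congr rfl h2, Finset.sum_const, smul_eq_mul]
  · rw [← Finset.sum_filter]
    have h2 : paid n k E b t ⊆ (Finset.range n ×ˢ Finset.range k).filter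
        (fun q => lk (fin n E b t) (Sum.inr q) = 0) := by
      intro q hq
      rw [paid, Finset.mem_filter] at hq
      rw [Finset.mem_filter]
      exact ⟨hq.1, hq.2.2⟩
    refine le_trans ?_ (Finset.sum_le_sum_of_subset h2)
    have h3 : ∀ q ∈ paid n k E b t, lk (init n E b t) (Sum.inr q) = t := by
      rintro ⟨v, c⟩ hq
      rw [paid, Finset.mem_filter, Finset.mem_product, Finset.mem_range] at hq
      obtain ⟨i, hi, _, _, rfl⟩ := mem_cols.1 hq.2.1
      exact lk_init_inr hq.1.1 hi
    rw [Finset.sum_congr rfl h3, Finset.sum_const, smul_eq_mul]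

/-- the extra colours of the candidate are paid -/
theorem extras_le {n k : ℕ} {E : Ed} {b t : ℕ} (hL : Legal (n, k, E, b)) (ht : t ≠ 0) :
    extras (cand n E b t) ≤ if b = 0 then 0 else (paid n k E b t).card := by
  have hkept : ∀ i, kept (fin n E b t) t i = true → lk (fin n E b t) (Sum.inl i) ≠ 0 := by
    intro i hi
    simpa [kept, ht] using hi
  have hzero : ∀ v < n, ∀ i < E.length, ∀ j < E.length, on E v i = true → on E v j = true →
      col E i ≠ col E j → kept (fin n E b t) t i = true → kept (fin n E b t) t j = true →
      b ≠ 0 ∧ (lk (fin n E b t) (Sum.inr (v, col E i)) = 0 ∨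
        lk (fin n E b t) (Sum.inr (v, col E j)) = 0) := by
    intro v hv i hi j hj h1 h2 h3 h4 h5
    obtain ⟨el, he1, he2⟩ := foldl_zero (cons n E b) (lk (init n E b t)) (con E b v i j)
      (mem_cons_iff.2 ⟨v, hv, i, hi, j, hj, h1, h2, h3, rfl⟩)
    rw [← lk_foldl] at he2
    change lk (fin n E b t) el = 0 at he2
    rw [inCon_iff] at he1
    unfold con at he1
    have k1 := hkept i h4
    have k2 := hkept j h5
    split_ifs at he1 with hb
    · rcases he1 with rfl | rfl | rfl | rfl
      · exact absurd he2 k1
      · exact absurd he2 k1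
      · exact absurd he2 k2
      · exact absurd he2 k2
    · refine ⟨hb, ?_⟩
      rcases he1 with rfl | rfl | rfl | rfl
      · exact absurd he2 k1
      · exact Or.inl he2
      · exact absurd he2 k2
      · exact Or.inr he2
  -- per node
  have hnode : ∀ v < n, (asg (cand n E b t) v).card - 1 ≤ if b = 0 then 0 else
      ((Finset.range k).filter (fun c => c ∈ cols E (fin n E b t) t v ∧
        lk (fin n E b t) (Sum.inr (v, c)) = 0)).card := by
    intro v hv
    rw [asg_cand hv]
    unfold nn
    split_ifs with h1 hb hb
    · simp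
    · simp
    · -- no two colours
      by_contra hc
      have h2 : 1 < (cols E (fin n E b t) t v).toFinset.card := by omega
      obtain ⟨c, hc1, c', hc2, hne⟩ := Finset.one_lt_card.1 h2
      rw [List.mem_toFinset] at hc1 hc2
      obtain ⟨i, hi, k1, o1, rfl⟩ := mem_cols.1 hc1
      obtain ⟨j, hj, k2, o2, rfl⟩ := mem_cols.1 hc2
      exact (hzero v hv i hi j hj o1 o2 hne k1 k2).1 hb
    · set P := (Finset.range k).filter (fun c => c ∈ cols E (fin n E b t) t v ∧
        lk (fin n E b t) (Sum.inr (v, c)) = 0) with hP
      have h2 : ((cols E (fin n E b t) t v).toFinset \ P).card ≤ 1 := by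
        rw [Finset.card_le_one]
        intro c hc c' hc'
        rw [Finset.mem_sdiff, List.mem_toFinset] at hc hc'
        by_contra hne
        obtain ⟨i, hi, k1, o1, rfl⟩ := mem_cols.1 hc.1
        obtain ⟨j, hj, k2, o2, rfl⟩ := mem_cols.1 hc'.1
        rcases (hzero v hv i hi j hj o1 o2 hne k1 k2).2 with h | h
        · apply hc.2
          rw [hP, Finset.mem_filter, Finset.mem_range]
          exact ⟨(legal_getD hL hi).1, hc.1, h⟩
        · apply hc'.2
          rw [hP, Finset.mem_filter, Finset.mem_range]
          exact ⟨(legal_getD hL hj).1, hc'.1, h⟩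
      have h3 : (cols E (fin n E b t) t v).toFinset.card ≤
          ((cols E (fin n E b t) t v).toFinset \ P).card + P.card := by
        have := Finset.card_le_card_sdiff_add_card (t := P)
          (s := (cols E (fin n E b t) t v).toFinset)
        omega
      omega
  rw [extras_cand]
  by_cases hb : b = 0
  · rw [if_pos hb]
    apply le_of_eq
    apply Finset.sum_eq_zero
    intro v hv
    have := hnode v (Finset.mem_range.1 hv)
    rw [if_pos hb] at this
    omega
  · rw [if_neg hb]
    have h1 : (paid n k E b t).card = ∑ v ∈ Finset.range n, ((Finset.range k).filter (fun c =>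
        c ∈ cols E (fin n E b t) t v ∧ lk (fin n E b t) (Sum.inr (v, c)) = 0)).card := by
      rw [paid, Finset.card_filter, Finset.sum_product]
      apply Finset.sum_congr rfl
      intro v _
      rw [Finset.card_filter]
    rw [h1]
    apply Finset.sum_le_sum
    intro v hv
    have := hnode v (Finset.mem_range.1 hv)
    rwa [if_neg hb] at this

/-- the number of mistakes of a feasible solution is a good guess -/
theorem good_of_feasible {n k : ℕ} {E : Ed} {b : ℕ} {S : ℕ → Finset ℕ}
    (hL : Legal (n, k, E, b)) (hS : GlobalFeasible (n, k, E, b) S) :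
    good n E b (mistakes (n, k, E, b) S) = true := by
  generalize ht : mistakes (n, k, E, b) S = t
  unfold good
  simp only [Bool.and_eq_true, decide_eq_true_eq]
  by_cases ht0 : t = 0
  · subst ht0
    constructor
    · have h1 : extras (cand n E b 0) ≤ ∑ v ∈ Finset.range n, ((S v).card - 1) := by
        rw [extras_cand]
        apply Finset.sum_le_sum
        intro v hv
        rw [Finset.mem_range] at hv
        rw [asg_cand hv]
        unfold nn
        split_ifs with h1
        · simp
        · apply Nat.sub_le_sub_right
          apply Finset.card_le_card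
          intro c hc
          rw [List.mem_toFinset] at hc
          obtain ⟨i, hi, _, o1, rfl⟩ := mem_cols.1 hc
          by_contra hcS
          rw [mistakes_card, Finset.card_eq_zero, Finset.filter_eq_empty_iff] at ht
          exact ht (Finset.mem_range.2 hi) ⟨v, by simpa [on] using o1, hcS⟩
      have h2 : ∑ v ∈ Finset.range n, ((S v).card - 1) ≤ b := hS.2
      omega
    · refine (mk_cand_le hL).trans ?_
      simp [kept]
  · have h1 := weight_bound hL hS ht
    have h2 : mk E (cand n E b t) ≤ (lost n E b t).card := by
      refine (mk_cand_le hL).trans (Finset.card_le_card ?_)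
      intro i hi
      rw [Finset.mem_filter] at hi
      rw [lost, Finset.mem_filter]
      refine ⟨hi.1, ?_⟩
      simpa [kept, ht0] using hi.2
    have h3 := extras_le hL ht0
    by_cases hb : b = 0
    · rw [if_pos hb] at h3
      subst hb
      simp only [Nat.zero_max, mul_one, one_mul, mul_zero, add_zero] at h1
      have h4 : 0 ≤ (paid n k E 0 t).card * t := Nat.zero_le _
      omega
    · rw [if_neg hb] at h3
      rw [max_eq_left (by omega : 1 ≤ b)] at h1
      have hbt : 4 * (b * t + t * b) = 8 * (b * t) := by ring
      rw [hbt] at h1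
      constructor
      · refine h3.trans ?_
        have h4 : (paid n k E b t).card * t ≤ (8 * b) * t := by
          calc (paid n k E b t).card * t ≤ 8 * (b * t) := by omega
            _ = (8 * b) * t := by ring
        exact Nat.le_of_mul_le_mul_right h4 (by omega)
      · refine h2.trans ?_
        have h4 : (lost n E b t).card * b ≤ (8 * t) * b := by
          calc (lost n E b t).card * b ≤ 8 * (b * t) := by omega
            _ = (8 * t) * b := by ring
        exact Nat.le_of_mul_le_mul_right h4 (by omega)

theorem head?_filter_range {m t : ℕ} {p : ℕ → Bool}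
    (h : ((List.range m).filter p).head? = some t) :
    p t = true ∧ t < m ∧ ∀ s < t, p s = false := by
  induction m with
  | zero => simp at h
  | succ m ih =>
    rw [List.range_succ, List.filter_append, List.head?_append] at h
    cases h1 : ((List.range m).filter p).head? with
    | none =>
      rw [h1, Option.none_or] at h
      have h2 : ∀ s < m, p s = false := by
        rw [List.head?_eq_none_iff, List.filter_eq_nil_iff] at h1
        intro s hs
        simpa using h1 s (List.mem_range.2 hs)
      cases hp : p m with
      | false => simp [hp] at h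
      | true =>
        rw [List.filter_singleton, hp, cond_true, List.head?_cons, Option.some.injEq] at h
        subst h
        exact ⟨hp, Nat.lt_succ_self _, h2⟩
    | some u =>
      rw [h1, Option.some_or, Option.some.injEq] at h
      subst h
      obtain ⟨h2, h3, h4⟩ := ih h1
      exact ⟨h2, by omega, h4⟩

theorem best_spec {n k : ℕ} {E : Ed} {b : ℕ} (hL : Legal (n, k, E, b)) :
    good n E b (best n E b) = true ∧
      ∀ S, GlobalFeasible (n, k, E, b) S → best n E b ≤ mistakes (n, k, E, b) S := by
  have hlen : ∀ S, mistakes (n, k, E, b) S < E.length + 1 := by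
    intro S
    have : mistakes (n, k, E, b) S ≤ E.length := List.countP_le_length
    omega
  unfold best
  cases h : ((List.range (E.length + 1)).filter (fun t => good n E b t)).head? with
  | none =>
    exfalso
    rw [List.head?_eq_none_iff, List.filter_eq_nil_iff] at h
    have hS : GlobalFeasible (n, k, E, b) (fun _ => {0}) := by
      constructor
      · intro v _
        refine ⟨by simp, ?_⟩
        have := hL.1
        simp only [Finset.singleton_subset_iff, Finset.mem_range]
        omega
      · simp
    exact h _ (List.mem_range.2 (hlen _)) (good_of_feasible hL hS)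
  | some t =>
    obtain ⟨h1, h2, h3⟩ := head?_filter_range h
    refine ⟨h1, fun S hS => ?_⟩
    by_contra hc
    have h4 := h3 _ (not_le.1 hc)
    rw [good_of_feasible hL hS] at h4
    simp at h4

theorem out_spec {n k : ℕ} {E : Ed} {b : ℕ} (hL : Legal (n, k, E, b)) :
    (∀ v < n, (asg (out n E b) v).Nonempty ∧ asg (out n E b) v ⊆ Finset.range k) ∧
    ∑ v ∈ Finset.range n, ((asg (out n E b) v).card - 1) ≤ 8 * b ∧
    ∀ S, GlobalFeasible (n, k, E, b) S →
      mistakes (n, k, E, b) (asg (out n E b)) ≤ 8 * mistakes (n, k, E, b) S := by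
  obtain ⟨h1, h2⟩ := best_spec hL
  unfold good at h1
  simp only [Bool.and_eq_true, decide_eq_true_eq] at h1
  refine ⟨fun v hv => cand_legal hL hv, ?_, fun S hS => ?_⟩
  · rw [out, ← extras_cand]
    exact h1.1
  · rw [mk_eq]
    change mk E _ ≤ _
    have := h2 S hS
    rw [out]
    omega

end Pool.Agent.H801.Bic
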