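import Pool.Agent.H801.Ecc.Core

/-!
# A local-ratio algorithm for hitting sets with four elements
-/

namespace Pool.Agent.H801.Bic

open Pool.Agent.NPC Pool.Agent.H801.Ecc

/-- the elements: hyperedges and pairs of a node and a colour -/
abbrev El : Type := ℕ ⊕ (ℕ × ℕ)

/-- a set of at most four elements, to be hit -/
abbrev Con : Type := El × El × El × El

/-- is the element in the constraint? -/
def inCon (el : El) (c : Con) : Bool :=
  decide (el = c.1) || (decide (el = c.2.1) || (decide (el = c.2.2.1) || decide (el = c.2.2.2)))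

theorem inCon_iff {el : El} {c : Con} :
    inCon el c = true ↔ el = c.1 ∨ el = c.2.1 ∨ el = c.2.2.1 ∨ el = c.2.2.2 := by
  simp [inCon]

/-- the least residual weight of a constraint -/
def dl (r : El → ℕ) (c : Con) : ℕ := min (min (r c.1) (r c.2.1)) (min (r c.2.2.1) (r c.2.2.2))

/-- the step of the algorithm, for weight functions -/
def stepf (r : El → ℕ) (c : Con) (el : El) : ℕ :=
  if inCon el c = true then r el - dl r c else r el

theorem dl_le {r : El → ℕ} {c : Con} {el : El} (h : inCon el c = true) : dl r c ≤ r el := by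
  rw [inCon_iff] at h
  unfold dl
  rcases h with rfl | rfl | rfl | rfl
  · exact (min_le_left _ _).trans (min_le_left _ _)
  · exact (min_le_left _ _).trans (min_le_right _ _)
  · exact (min_le_right _ _).trans (min_le_left _ _)
  · exact (min_le_right _ _).trans (min_le_right _ _)

theorem exists_dl (r : El → ℕ) (c : Con) : ∃ el, inCon el c = true ∧ dl r c = r el := by
  unfold dl
  rcases min_choice (min (r c.1) (r c.2.1)) (min (r c.2.2.1) (r c.2.2.2)) with h | h <;> rw [h]
  · rcases min_choice (r c.1) (r c.2.1) with h | h <;> rw [h]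
    · exact ⟨_, inCon_iff.2 (Or.inl rfl), rfl⟩
    · exact ⟨_, inCon_iff.2 (Or.inr (Or.inl rfl)), rfl⟩
  · rcases min_choice (r c.2.2.1) (r c.2.2.2) with h | h <;> rw [h]
    · exact ⟨_, inCon_iff.2 (Or.inr (Or.inr (Or.inl rfl))), rfl⟩
    · exact ⟨_, inCon_iff.2 (Or.inr (Or.inr (Or.inr rfl))), rfl⟩

theorem stepf_le (r : El → ℕ) (c : Con) (el : El) : stepf r c el ≤ r el := by
  unfold stepf
  split_ifs
  · exact Nat.sub_le _ _
  · exact le_rfl

theorem foldl_le (cs : List Con) : ∀ (r : El → ℕ) (el : El), cs.foldl stepf r el ≤ r el := by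
  induction cs with
  | nil => intro r el; exact le_rfl
  | cons c cs ih =>
    intro r el
    rw [List.foldl_cons]
    exact (ih _ _).trans (stepf_le r c el)

theorem foldl_zero (cs : List Con) : ∀ (r : El → ℕ), ∀ c ∈ cs,
    ∃ el, inCon el c = true ∧ cs.foldl stepf r el = 0 := by
  induction cs with
  | nil => intro r c hc; simp at hc
  | cons d cs ih =>
    intro r c hc
    rw [List.foldl_cons]
    rw [List.mem_cons] at hc
    rcases hc with rfl | hc
    · obtain ⟨el, h1, h2⟩ := exists_dl r c
      refine ⟨el, h1, ?_⟩
      have h3 := foldl_le cs (stepf r c) el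
      have h4 : stepf r c el = 0 := by
        unfold stepf
        rw [if_pos h1, h2, Nat.sub_self]
      omega
    · exact ih _ c hc

open Classical in
theorem step_charge (r : El → ℕ) (c : Con) (U : Finset El) (H : El → Prop)
    (hU : ∃ el ∈ U, inCon el c = true ∧ H el) :
    ∑ el ∈ U, (r el - stepf r c el) ≤ 4 * ∑ el ∈ U.filter H, (r el - stepf r c el) := by
  have h1 : ∀ el, r el - stepf r c el = if inCon el c = true then dl r c else 0 := by
    intro el
    unfold stepf
    by_cases h : inCon el c = true
    · rw [if_pos h, if_pos h]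
      have := dl_le (r := r) h
      omega
    · rw [if_neg h, if_neg h, Nat.sub_self]
  have h2 : ∑ el ∈ U, (r el - stepf r c el) ≤ 4 * dl r c := by
    rw [Finset.sum_congr rfl (fun el _ => h1 el), ← Finset.sum_filter, Finset.sum_const,
      smul_eq_mul]
    apply Nat.mul_le_mul_right
    have h3 : U.filter (fun el => inCon el c = true) ⊆ {c.1, c.2.1, c.2.2.1, c.2.2.2} := by
      intro el hel
      rw [Finset.mem_filter, inCon_iff] at hel
      simpa using hel.2
    refine (Finset.card_le_card h3).trans ?_
    refine (Finset.card_insert_le _ _).trans ?_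
    have h4 : ({c.2.1, c.2.2.1, c.2.2.2} : Finset El).card ≤ 3 := Finset.card_le_three
    omega
  refine h2.trans (Nat.mul_le_mul_left _ ?_)
  obtain ⟨el, he1, he2, he3⟩ := hU
  have h5 : r el - stepf r c el ≤ ∑ el ∈ U.filter H, (r el - stepf r c el) :=
    Finset.single_le_sum (f := fun el => r el - stepf r c el) (fun _ _ => Nat.zero_le _)
      (Finset.mem_filter.2 ⟨he1, he3⟩)
  rw [h1 el, if_pos he2] at h5
  exact h5

open Classical in
theorem foldl_charge (U : Finset El) (H : El → Prop) (cs : List Con) :
    ∀ (r : El → ℕ), (∀ c ∈ cs, ∃ el ∈ U, inCon el c = true ∧ H el) →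
    ∑ el ∈ U, (r el - cs.foldl stepf r el) ≤
      4 * ∑ el ∈ U.filter H, (r el - cs.foldl stepf r el) := by
  induction cs with
  | nil => intro r _; simp
  | cons c cs ih =>
    intro r hcs
    rw [List.foldl_cons]
    have h1 := ih (stepf r c) (fun d hd => hcs d (List.mem_cons_of_mem _ hd))
    have h2 := step_charge r c U H (hcs c List.mem_cons_self)
    have h3 : ∀ el, r el - cs.foldl stepf (stepf r c) el =
        (r el - stepf r c el) + (stepf r c el - cs.foldl stepf (stepf r c) el) := by
      intro el
      have e1 := stepf_le r c el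
      have e2 := foldl_le cs (stepf r c) el
      omega
    rw [Finset.sum_congr rfl (fun el _ => h3 el), Finset.sum_congr rfl (fun el _ => h3 el),
      Finset.sum_add_distrib, Finset.sum_add_distrib]
    omega

open Classical in
/-- The weight of the elements with residual weight zero is at most four times the weight of any
hitting set. -/
theorem zero_weight (U : Finset El) (H : El → Prop) (cs : List Con) (r : El → ℕ)
    (h : ∀ c ∈ cs, ∃ el ∈ U, inCon el c = true ∧ H el) :
    ∑ el ∈ U.filter (fun el => cs.foldl stepf r el = 0), r el ≤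
      4 * ∑ el ∈ U.filter H, r el := by
  calc ∑ el ∈ U.filter (fun el => cs.foldl stepf r el = 0), r el
      = ∑ el ∈ U.filter (fun el => cs.foldl stepf r el = 0), (r el - cs.foldl stepf r el) := by
        apply Finset.sum_congr rfl
        intro el hel
        rw [(Finset.mem_filter.1 hel).2, Nat.sub_zero]
    _ ≤ ∑ el ∈ U, (r el - cs.foldl stepf r el) :=
        Finset.sum_le_sum_of_subset (Finset.filter_subset _ _)
    _ ≤ 4 * ∑ el ∈ U.filter H, (r el - cs.foldl stepf r el) := foldl_charge U H cs r h
    _ ≤ 4 * ∑ el ∈ U.filter H, r el :=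
        Nat.mul_le_mul_left _ (Finset.sum_le_sum (fun _ _ => Nat.sub_le _ _))

/-! ### The list version -/

/-- looking up a residual weight -/
def lk (S : List (El × ℕ)) (el : El) : ℕ :=
  match (S.filter (fun p => decide (p.1 = el))).head? with
  | none => 0
  | some p => p.2

/-- the step of the algorithm, for lists of residual weights -/
def stepl (S : List (El × ℕ)) (c : Con) : List (El × ℕ) :=
  S.map (fun p => (p.1, if inCon p.1 c = true then p.2 - dl (lk S) c else p.2))

theorem lk_map (S : List (El × ℕ)) (f : El × ℕ → ℕ) (el : El) :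
    lk (S.map (fun p => (p.1, f p))) el =
      match (S.filter (fun p => decide (p.1 = el))).head? with
      | none => 0
      | some p => f p := by
  unfold lk
  rw [List.filter_map]
  have : (fun p : El × ℕ => decide (p.1 = el)) ∘ (fun p : El × ℕ => (p.1, f p)) =
      fun p => decide (p.1 = el) := rfl
  rw [this, List.head?_map]
  cases (S.filter (fun p => decide (p.1 = el))).head? <;> rfl

theorem lk_stepl (S : List (El × ℕ)) (c : Con) : lk (stepl S c) = stepf (lk S) c := by
  funext el
  unfold stepl
  rw [lk_map S (fun p => if inCon p.1 c = true then p.2 - dl (lk S) c else p.2) el]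
  unfold stepf
  have hk : ∀ p, (S.filter (fun p => decide (p.1 = el))).head? = some p → p.1 = el := by
    intro p hp
    have := List.mem_of_mem_head? hp
    simpa using (List.mem_filter.1 this).2
  cases h : (S.filter (fun p => decide (p.1 = el))).head? with
  | none =>
    have h0 : lk S el = 0 := by unfold lk; rw [h]
    simp [h0]
  | some p =>
    have h0 : lk S el = p.2 := by unfold lk; rw [h]
    have h1 := hk p h
    simp only [h1, h0]

theorem lk_foldl (cs : List Con) : ∀ S : List (El × ℕ),
    lk (cs.foldl stepl S) = cs.foldl stepf (lk S) := by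
  induction cs with
  | nil => intro S; rfl
  | cons c cs ih =>
    intro S
    rw [List.foldl_cons, List.foldl_cons, ih, lk_stepl]

theorem lk_of_const {S : List (El × ℕ)} {el : El} {w : ℕ} (h : ∀ p ∈ S, p.1 = el → p.2 = w)
    (hne : ∃ p ∈ S, p.1 = el) : lk S el = w := by
  unfold lk
  cases h1 : (S.filter (fun p => decide (p.1 = el))).head? with
  | none =>
    rw [List.head?_eq_none_iff, List.filter_eq_nil_iff] at h1
    obtain ⟨p, hp, hpe⟩ := hne
    exact absurd (by simpa using hpe) (h1 p hp)
  | some p =>
    have h2 := List.mem_filter.1 (List.mem_of_mem_head? h1)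
    exact h p h2.1 (by simpa using h2.2)

theorem lk_le_of {S : List (El × ℕ)} {el : El} {w : ℕ} (h : ∀ p ∈ S, p.1 = el → p.2 ≤ w) :
    lk S el ≤ w := by
  unfold lk
  cases h1 : (S.filter (fun p => decide (p.1 = el))).head? with
  | none => exact Nat.zero_le _
  | some p =>
    have h2 := List.mem_filter.1 (List.mem_of_mem_head? h1)
    exact h p h2.1 (by simpa using h2.2)

end Pool.Agent.H801.Bic
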