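import Pool.Agent.H801.Bic.Alg

/-!
# The approximation algorithm runs in polynomial time
-/

namespace Pool.Agent.H801.Bic

open Pool.Agent.NPC Pool.Agent.H801.Ecc

variable {α : Type} [TEnc α]

/-! ### Sizes -/

theorem sz_le_two {S' S : List (El × ℕ)}
    (h : List.Forall₂ (fun p q : El × ℕ => p.1 = q.1 ∧ p.2 ≤ q.2) S' S) : sz S' ≤ 2 * sz S := by
  induction h with
  | nil => simp
  | cons h _ ih =>
    obtain ⟨h1, h2⟩ := h
    have h3 := sz_nat_mono_le h2
    rename_i p q _ _ _
    obtain ⟨a, m⟩ := p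
    obtain ⟨b, n⟩ := q
    simp only at h1 h2 h3
    subst h1
    simp only [sz_list_cons, sz_pair]
    omega

theorem stepl_rel (S : List (El × ℕ)) (c : Con) :
    List.Forall₂ (fun p q : El × ℕ => p.1 = q.1 ∧ p.2 ≤ q.2) (stepl S c) S := by
  unfold stepl
  rw [List.forall₂_map_left_iff]
  apply List.forall₂_same.2
  intro p _
  refine ⟨rfl, ?_⟩
  simp only
  split_ifs
  · exact Nat.sub_le _ _
  · exact le_rfl

theorem rel_trans {A B C : List (El × ℕ)}
    (h1 : List.Forall₂ (fun p q : El × ℕ => p.1 = q.1 ∧ p.2 ≤ q.2) A B)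
    (h2 : List.Forall₂ (fun p q : El × ℕ => p.1 = q.1 ∧ p.2 ≤ q.2) B C) :
    List.Forall₂ (fun p q : El × ℕ => p.1 = q.1 ∧ p.2 ≤ q.2) A C := by
  induction h1 generalizing C with
  | nil => cases h2; exact List.Forall₂.nil
  | cons h _ ih =>
    cases h2 with
    | cons h' h'' => exact List.Forall₂.cons ⟨h.1.trans h'.1, h.2.trans h'.2⟩ (ih h'')

theorem foldl_rel (cs : List Con) : ∀ S : List (El × ℕ),
    List.Forall₂ (fun p q : El × ℕ => p.1 = q.1 ∧ p.2 ≤ q.2) (cs.foldl stepl S) S := by
  induction cs with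
  | nil =>
    intro S
    exact List.forall₂_same.2 (fun p _ => ⟨rfl, le_rfl⟩)
  | cons c cs ih =>
    intro S
    exact rel_trans (ih (stepl S c)) (stepl_rel S c)

/-! ### The local-ratio part -/

theorem p_inCon {el : α → El} {c : α → Con} (he : Poly el) (hc : Poly c) :
    Poly (fun a => inCon (el a) (c a)) := by
  unfold inCon
  exact Poly.or (Poly.decide_eq he (Poly.fst hc)) (Poly.or (Poly.decide_eq he
    (Poly.fst (Poly.snd hc))) (Poly.or (Poly.decide_eq he (Poly.fst (Poly.snd (Poly.snd hc))))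
      (Poly.decide_eq he (Poly.snd (Poly.snd (Poly.snd hc))))))

theorem p_lk {S : α → List (El × ℕ)} {el : α → El} (hS : Poly S) (he : Poly el) :
    Poly (fun a => lk (S a) (el a)) := by
  unfold lk
  refine (Poly.optCases (o := fun a => ((S a).filter (fun p => decide (p.1 = el a))).head?)
    (g := fun _ => 0) (h := fun _ p => p.2) (Poly.head? (Poly.filter
      (p := fun (a : α) (p : El × ℕ) => decide (p.1 = el a)) hS (Poly.decide_eq
        (Poly.fst (Poly.snd Poly.id)) (he.comp (Poly.fst Poly.id))))) (NPC.Poly.const 0)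
      (Poly.snd (Poly.snd Poly.id))).congr fun a => ?_
  cases ((S a).filter (fun p => decide (p.1 = el a))).head? <;> rfl

theorem p_dl {S : α → List (El × ℕ)} {c : α → Con} (hS : Poly S) (hc : Poly c) :
    Poly (fun a => dl (lk (S a)) (c a)) := by
  unfold dl
  exact Poly.min (Poly.min (p_lk hS (Poly.fst hc)) (p_lk hS (Poly.fst (Poly.snd hc))))
    (Poly.min (p_lk hS (Poly.fst (Poly.snd (Poly.snd hc))))
      (p_lk hS (Poly.snd (Poly.snd (Poly.snd hc)))))

theorem p_stepl {S : α → List (El × ℕ)} {c : α → Con} (hS : Poly S) (hc : Poly c) :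
    Poly (fun a => stepl (S a) (c a)) := by
  unfold stepl
  refine NPC.Poly.map (F := fun (a : α) (p : El × ℕ) =>
    ((p.1, if inCon p.1 (c a) = true then p.2 - dl (lk (S a)) (c a) else p.2) : El × ℕ)) hS ?_
  refine Poly.pair (Poly.fst (Poly.snd Poly.id)) (Poly.ite (Poly.decide_bool ?_) ?_
    (Poly.snd (Poly.snd Poly.id)))
  · exact p_inCon (Poly.fst (Poly.snd Poly.id)) (hc.comp (Poly.fst Poly.id))
  · exact Poly.sub (Poly.snd (Poly.snd Poly.id)) ((p_dl hS hc).comp (Poly.fst Poly.id))

theorem p_foldl {cs : α → List Con} {S : α → List (El × ℕ)} (hcs : Poly cs) (hS : Poly S) :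
    Poly (fun a => (cs a).foldl stepl (S a)) := by
  obtain ⟨q, hq⟩ := hS.sz_le
  refine Poly.foldl (F := fun _ S c => stepl S c) hcs hS
    (p_stepl (Poly.fst (Poly.snd Poly.id)) (Poly.snd (Poly.snd Poly.id)))
    (Polynomial.C 2 * q) ?_
  intro a k _
  have h1 := sz_le_two (foldl_rel ((cs a).take k) (S a))
  have h2 := hq a
  simp only [Polynomial.eval_mul, Polynomial.eval_C]
  change sz (((cs a).take k).foldl stepl (S a)) ≤ _
  omega

/-! ### The instance -/

theorem p_col {E : α → Ed} {i : α → ℕ} (hE : Poly E) (hi : Poly i) :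
    Poly (fun a => col (E a) (i a)) :=
  Poly.fst (Poly.getD hE hi (NPC.Poly.const (0, [])))

theorem p_on {E : α → Ed} {v i : α → ℕ} (hE : Poly E) (hv : Poly v) (hi : Poly i) :
    Poly (fun a => on (E a) (v a) (i a)) :=
  Poly.decide_mem hv (Poly.snd (Poly.getD hE hi (NPC.Poly.const (0, []))))

theorem p_conf {E : α → Ed} {v i j : α → ℕ} (hE : Poly E) (hv : Poly v) (hi : Poly i)
    (hj : Poly j) : Poly (fun a => conf (E a) (v a) (i a) (j a)) :=
  Poly.and (p_on hE hv hi) (Poly.and (p_on hE hv hj) (Poly.not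
    (Poly.decide_eq (p_col hE hi) (p_col hE hj))))

theorem p_con {E : α → Ed} {b v i j : α → ℕ} (hE : Poly E) (hb : Poly b) (hv : Poly v)
    (hi : Poly i) (hj : Poly j) : Poly (fun a => con (E a) (b a) (v a) (i a) (j a)) := by
  unfold con
  exact Poly.ite (Poly.decide_eq hb (NPC.Poly.const 0))
    (Poly.pair (Poly.inl hi) (Poly.pair (Poly.inl hi) (Poly.pair (Poly.inl hj) (Poly.inl hj))))
    (Poly.pair (Poly.inl hi) (Poly.pair (Poly.inr (Poly.pair hv (p_col hE hi)))
      (Poly.pair (Poly.inl hj) (Poly.inr (Poly.pair hv (p_col hE hj))))))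

theorem p_cons {n b : α → ℕ} {E : α → Ed} (hn : UPoly n) (hE : Poly E) (hb : Poly b) :
    Poly (fun a => cons (n a) (E a) (b a)) := by
  have hr : Poly (fun a => List.range (E a).length) := (UPoly.length hE).range
  unfold cons
  refine Poly.flatMap (F := fun (a : α) (v : ℕ) => (List.range (E a).length).flatMap fun i =>
    ((List.range (E a).length).filter (fun j => conf (E a) v i j)).map
      (fun j => con (E a) (b a) v i j)) hn.range ?_
  refine Poly.flatMap (F := fun (p : α × ℕ) (i : ℕ) =>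
    ((List.range (E p.1).length).filter (fun j => conf (E p.1) p.2 i j)).map
      (fun j => con (E p.1) (b p.1) p.2 i j)) (hr.comp (Poly.fst Poly.id)) ?_
  refine NPC.Poly.map (F := fun (p : (α × ℕ) × ℕ) (j : ℕ) =>
    con (E p.1.1) (b p.1.1) p.1.2 p.2 j) ?_ ?_
  · refine Poly.filter (p := fun (p : (α × ℕ) × ℕ) (j : ℕ) => conf (E p.1.1) p.1.2 p.2 j)
      (hr.comp (Poly.fst (Poly.fst Poly.id))) ?_
    exact p_conf (hE.comp (Poly.fst (Poly.fst (Poly.fst Poly.id))))
      (Poly.snd (Poly.fst (Poly.fst Poly.id))) (Poly.snd (Poly.fst Poly.id)) (Poly.snd Poly.id)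
  · exact p_con (hE.comp (Poly.fst (Poly.fst (Poly.fst Poly.id))))
      (hb.comp (Poly.fst (Poly.fst (Poly.fst Poly.id))))
      (Poly.snd (Poly.fst (Poly.fst Poly.id))) (Poly.snd (Poly.fst Poly.id)) (Poly.snd Poly.id)

theorem p_init {n b t : α → ℕ} {E : α → Ed} (hn : UPoly n) (hE : Poly E) (hb : Poly b)
    (ht : Poly t) : Poly (fun a => init (n a) (E a) (b a) (t a)) := by
  have hr : Poly (fun a => List.range (E a).length) := (UPoly.length hE).range
  unfold init
  refine Poly.append ?_ ?_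
  · refine NPC.Poly.map (F := fun (a : α) (i : ℕ) => (((Sum.inl i : El), max (b a) 1) : El × ℕ))
      hr ?_
    exact Poly.pair (Poly.inl (Poly.snd Poly.id))
      (Poly.max (hb.comp (Poly.fst Poly.id)) (NPC.Poly.const 1))
  · refine Poly.flatMap (F := fun (a : α) (v : ℕ) => (List.range (E a).length).map
      (fun i => (((Sum.inr (v, col (E a) i) : El), t a) : El × ℕ))) hn.range ?_
    refine NPC.Poly.map (F := fun (p : α × ℕ) (i : ℕ) =>
      (((Sum.inr (p.2, col (E p.1) i) : El), t p.1) : El × ℕ)) (hr.comp (Poly.fst Poly.id)) ?_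
    exact Poly.pair (Poly.inr (Poly.pair (Poly.snd (Poly.fst Poly.id))
      (p_col (hE.comp (Poly.fst (Poly.fst Poly.id))) (Poly.snd Poly.id))))
      (ht.comp (Poly.fst (Poly.fst Poly.id)))

theorem p_fin {n b t : α → ℕ} {E : α → Ed} (hn : UPoly n) (hE : Poly E) (hb : Poly b)
    (ht : Poly t) : Poly (fun a => fin (n a) (E a) (b a) (t a)) :=
  p_foldl (p_cons hn hE hb) (p_init hn hE hb ht)

theorem p_kept {R : α → List (El × ℕ)} {t i : α → ℕ} (hR : Poly R) (ht : Poly t) (hi : Poly i) :
    Poly (fun a => kept (R a) (t a) (i a)) :=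
  Poly.or (Poly.decide_eq ht (NPC.Poly.const 0))
    (Poly.not (Poly.decide_eq (p_lk hR (Poly.inl hi)) (NPC.Poly.const 0)))

theorem p_cols {E : α → Ed} {R : α → List (El × ℕ)} {t v : α → ℕ} (hE : Poly E) (hR : Poly R)
    (ht : Poly t) (hv : Poly v) : Poly (fun a => cols (E a) (R a) (t a) (v a)) := by
  unfold cols
  refine NPC.Poly.map (F := fun (a : α) (i : ℕ) => col (E a) i) ?_
    (p_col (hE.comp (Poly.fst Poly.id)) (Poly.snd Poly.id))
  refine Poly.filter (p := fun (a : α) (i : ℕ) => kept (R a) (t a) i && on (E a) (v a) i)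
    (UPoly.length hE).range ?_
  exact Poly.and (p_kept (hR.comp (Poly.fst Poly.id)) (ht.comp (Poly.fst Poly.id))
    (Poly.snd Poly.id)) (p_on (hE.comp (Poly.fst Poly.id)) (hv.comp (Poly.fst Poly.id))
      (Poly.snd Poly.id))

theorem p_nn {l : α → List ℕ} (hl : Poly l) : Poly (fun a => nn (l a)) := by
  unfold nn
  exact Poly.ite (Poly.decide_eq hl (NPC.Poly.const [])) (NPC.Poly.const [0]) hl

theorem p_cand {n b t : α → ℕ} {E : α → Ed} (hn : UPoly n) (hE : Poly E) (hb : Poly b)
    (ht : Poly t) : Poly (fun a => cand (n a) (E a) (b a) (t a)) := by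
  unfold cand
  -- compute the final weights first
  have h1 : Poly (fun a => (a, fin (n a) (E a) (b a) (t a))) :=
    Poly.pair Poly.id (p_fin hn hE hb ht)
  have h2 : Poly (fun p : α × List (El × ℕ) => (List.range (n p.1)).map
      (fun v => nn (cols (E p.1) p.2 (t p.1) v))) := by
    refine NPC.Poly.map (F := fun (p : α × List (El × ℕ)) (v : ℕ) =>
      nn (cols (E p.1) p.2 (t p.1) v)) (hn.range.comp (Poly.fst Poly.id)) ?_
    exact p_nn (p_cols (hE.comp (Poly.fst (Poly.fst Poly.id))) (Poly.snd (Poly.fst Poly.id))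
      (ht.comp (Poly.fst (Poly.fst Poly.id))) (Poly.snd Poly.id))
  exact h2.comp h1

theorem sz_foldl_ins : ∀ (l acc : List ℕ), sz (l.foldl ins acc) + 1 ≤ sz acc + sz l
  | [], acc => by simp
  | x :: l, acc => by
    rw [List.foldl_cons]
    have h := sz_foldl_ins l (ins acc x)
    have h2 : sz (ins acc x) ≤ sz acc + sz x + 1 := by
      unfold ins
      split_ifs
      · omega
      · rw [sz_list_cons]; omega
    rw [sz_list_cons]
    omega

theorem p_dd {l : α → List ℕ} (hl : Poly l) : Poly (fun a => dd (l a)) := by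
  obtain ⟨q, hq⟩ := hl.sz_le
  unfold dd
  refine Poly.foldl (F := fun _ acc x => ins acc x) (s := fun _ => []) hl (NPC.Poly.const [])
    ?_ q ?_
  · unfold ins
    exact Poly.ite (Poly.decide_mem (Poly.snd (Poly.snd Poly.id)) (Poly.fst (Poly.snd Poly.id)))
      (Poly.fst (Poly.snd Poly.id)) (Poly.cons (Poly.snd (Poly.snd Poly.id))
        (Poly.fst (Poly.snd Poly.id)))
  · intro a k _
    have h1 := sz_foldl_ins ((l a).take k) []
    have h2 := NPC.Poly.sz_take_le (l a) k
    have h3 := hq a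
    rw [sz_list_nil] at h1
    change sz (((l a).take k).foldl ins []) ≤ _
    omega

theorem p_extras {L : α → List (List ℕ)} (hL : Poly L) : Poly (fun a => extras (L a)) := by
  unfold extras
  refine Poly.sum (NPC.Poly.map (F := fun (_ : α) (l : List ℕ) => (dd l).length - 1) hL ?_)
  exact Poly.sub (Poly.length (p_dd (Poly.snd Poly.id))) (NPC.Poly.const 1)

theorem p_good {n b t : α → ℕ} {E : α → Ed} (hn : UPoly n) (hE : Poly E) (hb : Poly b)
    (ht : Poly t) : Poly (fun a => good (n a) (E a) (b a) (t a)) := by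
  have hc := p_cand hn hE hb ht
  unfold good
  exact Poly.and (Poly.decide_le (p_extras hc) (Poly.mul (NPC.Poly.const 8) hb))
    (Poly.decide_le (poly_mk hE hc) (Poly.mul (NPC.Poly.const 8) ht))

theorem p_best {n b : α → ℕ} {E : α → Ed} (hn : UPoly n) (hE : Poly E) (hb : Poly b) :
    Poly (fun a => best (n a) (E a) (b a)) := by
  unfold best
  refine (Poly.optCases (o := fun a => ((List.range ((E a).length + 1)).filter
      (fun t => good (n a) (E a) (b a) t)).head?)
    (g := fun _ => 0) (h := fun _ t => t) (Poly.head? (Poly.filter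
      (p := fun (a : α) (t : ℕ) => good (n a) (E a) (b a) t)
      (UPoly.add (UPoly.length hE) (UPoly.const 1)).range
      (p_good (hn.comp (Poly.fst Poly.id)) (hE.comp (Poly.fst Poly.id))
        (hb.comp (Poly.fst Poly.id)) (Poly.snd Poly.id)))) (NPC.Poly.const 0)
      (Poly.snd Poly.id)).congr fun a => ?_
  cases ((List.range ((E a).length + 1)).filter
      (fun t => good (n a) (E a) (b a) t)).head? <;> rfl

theorem p_out {n b : α → ℕ} {E : α → Ed} (hn : UPoly n) (hE : Poly E) (hb : Poly b) :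
    Poly (fun a => out (n a) (E a) (b a)) :=
  p_cand hn hE hb (p_best hn hE hb)

/-- the algorithm, on the list of the nodes and the instance -/
def alg (p : List ℕ × Inst) : List (List ℕ) := out p.1.length (hedges p.2) (budget p.2)

theorem p_alg : Poly alg := by
  unfold alg hedges budget
  exact p_out (UPoly.length (Poly.fst Poly.id)) (Poly.fst (Poly.snd (Poly.snd (Poly.snd Poly.id))))
    (Poly.snd (Poly.snd (Poly.snd (Poly.snd Poly.id))))

theorem exists_alg : ∃ F : List Bool → List Bool, PolyTime F ∧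
    ∀ p : List ℕ × Inst, F (bits p) = bits (alg p) := by
  refine ⟨fun x => bits (match unbits (List ℕ × Inst) x with
    | none => []
    | some p => alg p), ?_, fun p => by simp only [unbits_bits]⟩
  refine polyTime_bits ((Poly.optCases (o := fun x => unbits (List ℕ × Inst) x)
    (g := fun _ => []) (h := fun _ p => alg p) poly_unbits (NPC.Poly.const [])
    (p_alg.comp (Poly.snd Poly.id))).congr fun x => ?_)
  cases unbits (List ℕ × Inst) x <;> rfl

end Pool.Agent.H801.Bic
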